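import Pool.Agent.W498.Tat.Defs
import Pool.Agent.W498.Dom.FixDefs

/-!
# Coniveau of the fixed part of the cohomology of a fibre: definitions
-/

open CategoryTheory AlgebraicGeometry

universe u v w

namespace Pool.Agent.W498.Niv

open Pool.Agent.H914 VarClass Obj WeilCohomology Pool.Agent.W498.Dom Pool.Agent.W498.Tat

/-- If `f : V ⟶ V'` is an equivariant map of representations of `Γ` over `K` such that `Q f`, and `V`
has the property `R`, then `V'` has the property `R`. -/
def Transfers (K : Type v) (Γ : Type w) [Field K] [Group Γ]
    (R : ∀ (V : Type v) [AddCommGroup V] [Module K V], (Γ →* Module.End K V) → Prop)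
    (Q : ∀ V V' : Type v, (V → V') → Prop) : Prop :=
  ∀ (V V' : Type v) [AddCommGroup V] [Module K V] [AddCommGroup V'] [Module K V']
    (ρ : Γ →* Module.End K V) (ρ' : Γ →* Module.End K V') (f : V →ₗ[K] V'),
    (∀ σ x, f (ρ σ x) = ρ' σ (f x)) → Q V V' f → R V ρ → R V' ρ'

/-- A property of representations of the group `Γ` over the field `K` which is invariant under
isomorphisms. -/
structure RepProperty (K : Type v) (Γ : Type w) [Field K] [Group Γ] where
  /-- the representation has the property -/
  holds : ∀ (V : Type v) [AddCommGroup V] [Module K V], (Γ →* Module.End K V) → Prop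
  iso : Transfers K Γ holds fun _ _ => Function.Bijective

/-- The property passes to quotients. -/
def RepProperty.PassesToQuotients {K : Type v} {Γ : Type w} [Field K] [Group Γ]
    (R : RepProperty K Γ) : Prop :=
  Transfers K Γ R.holds fun _ _ => Function.Surjective

section Alg

variable {K A C C' : Type v} {Γ : Type w} [Field K] [Group Γ] [Ring A] [Algebra K A] [Ring C]
  [Algebra K C] [Ring C'] [Algebra K C']

/-- The subspace `V` is stable under the action of `Γ`. -/
def IsStable (ρ : Γ →* Module.End K A) (V : Submodule K A) : Prop := ∀ σ, ∀ x ∈ V, ρ σ x ∈ V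

/-- The twist `V(r)` of a stable subspace `V`: the element `σ` acts by its action on `V`, multiplied
by the `r`-th power of `cyc σ`, the action on `K(1)`. -/
def twistedRep (cyc : Γ →* Kˣ) (ρ : Γ →* Module.End K A) (r : ℕ) (V : Submodule K A)
    (h : IsStable ρ V) : Γ →* Module.End K V where
  toFun σ := ((cyc σ : K) ^ r) • (ρ σ).restrict (h σ)
  map_one' := by
    ext x
    simp
  map_mul' := by
    intro σ τ
    ext x
    simp only [map_mul, Units.val_mul, LinearMap.smul_apply, Module.End.mul_apply,
      SetLike.val_smul, LinearMap.coe_restrict_apply, map_smul, smul_smul, mul_pow]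
    rw [mul_comm]

/-- The generalized Tate conjecture for the subspace `I` of the cohomology group `H^j(X)`, where `N`
is the part of coniveau at least `r`: it contains all `Γ`-stable subspaces `V` of `I` such that
`V(r)` has the property `R` (for example the property of being effective of weight `j - 2 r`). -/
def Tate (R : RepProperty K Γ) (cyc : Γ →* Kˣ) (ρ : Γ →* Module.End K A) (r : ℕ)
    (I N : Submodule K A) : Prop :=
  ∀ V ≤ I, ∀ h : IsStable ρ V, R.holds V (twistedRep cyc ρ r V h) → V ≤ N

/-- The subspace `N` is in the span of the `Γ`-stable subspaces `V` of `I` such that `V(r)` has the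
property `R`. -/
def Included (R : RepProperty K Γ) (cyc : Γ →* Kˣ) (ρ : Γ →* Module.End K A) (r : ℕ)
    (I N : Submodule K A) : Prop :=
  N ≤ sSup {V | V ≤ I ∧ ∃ h : IsStable ρ V, R.holds V (twistedRep cyc ρ r V h)}

/-- The analogue of the conjecture A for a filtration `N` of the cohomology of a variety of
dimension `m`, in the degrees `j = t + 2 r ≤ m`: if `L^(m - j) x` is in `N^(r + m - j)`, then `x` is
in `N^r`. -/
def FiltrationA (gr : ℕ → Submodule K A) (N : ℕ → ℕ → Submodule K A) (L : A) (m t : ℕ) : Prop :=
  ∀ r, t + 2 * r ≤ m → ∀ x ∈ gr (t + 2 * r),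
    L ^ (m - (t + 2 * r)) * x ∈ N (r + (m - (t + 2 * r))) (2 * m - (t + 2 * r)) →
      x ∈ N r (t + 2 * r)

/-- The image of `ι`. -/
def img (ι : A →ₐ[K] C) : Submodule K C := LinearMap.range ι.toLinearMap

/-- The algebra `C` is the direct sum of the image of `ι` and of its orthogonal complement, and an
element is in `NC` if and only if its component in the image of `ι` is the image of an element of
`N` and its component in the complement is in `NC`. -/
def SplitsBy (ι : A →ₐ[K] C) (tr : C →ₗ[K] K) (N : Submodule K A) (NC : Submodule K C) : Prop :=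
  IsCompl (img ι) (perp tr (img ι)) ∧
    ∀ x ∈ img ι, ∀ y ∈ perp tr (img ι), x + y ∈ NC ↔ (∃ z ∈ N, ι z = x) ∧ y ∈ NC

/-- An element of `G` is mapped to zero by `ι` if and only if it is mapped to zero by `ι'`, and to
`NC` by `ι` if and only if it is mapped to `NC'` by `ι'`. -/
def SameCondition (G : Submodule K A) (ι : A →ₐ[K] C) (ι' : A →ₐ[K] C') (NC : Submodule K C)
    (NC' : Submodule K C') : Prop :=
  ∀ y ∈ G, (ι y = 0 ↔ ι' y = 0) ∧ (ι y ∈ NC ↔ ι' y ∈ NC')

/-- The group `Γ` acts on `A` and by the character `cyc` on `K(1)`, compatibly with the degrees and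
with the products with the classes of divisors in `D`. -/
structure Action (gr : ℕ → Submodule K A) (D : Set A) (Γ : Type w) [Group Γ] where
  /-- the action -/
  act : Γ →* Module.End K A
  /-- the action on `K(1)` -/
  cyc : Γ →* Kˣ
  degree : ∀ σ j, ∀ y ∈ gr j, act σ y ∈ gr j
  mul_act : ∀ σ, ∀ d ∈ D, ∀ y, (cyc σ : K) • act σ (d * y) = d * act σ y

variable {gr : ℕ → Submodule K A} {D : Set A}

/-- The group `Γ` acts on `C`, compatibly with the restriction `ι` and the push-forward `γ`, which
raises the codimension by `s`. -/
structure ActionOn (G : Action gr D Γ) (ι : A →ₐ[K] C) (γ : C →ₗ[K] A) (s : ℕ) where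
  /-- the action -/
  act : Γ →* Module.End K C
  map_act : ∀ σ y, ι (G.act σ y) = act σ (ι y)
  push_act : ∀ σ x, (G.cyc σ : K) ^ s • G.act σ (γ x) = γ (act σ x)

/-- The generalized Tate conjecture for the cohomology group `G` of the total space, with part `N`
of coniveau at least `r`, as an equality. -/
def Total (R : RepProperty K Γ) (H : Action gr D Γ) (r : ℕ) (G N : Submodule K A) : Prop :=
  Tate R H.cyc H.act r G N ∧ Included R H.cyc H.act r G N

/-- The statements about the generalized Tate conjecture, for the cohomology groups `GC` and `GC'`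
of two fibres and their parts `NC` and `NC'` of coniveau at least `r`: it holds for the image of `ι`
if and only if it holds for the image of `ι'`; it holds for the image of `ι` if it holds for the
cohomology group `G` of the total space, with part `N` of coniveau at least `r`; if the property `R`
passes to quotients, then it holds for `GC` if and only if it holds for the image of `ι` and for its
orthogonal complement. -/
def Compares (R : RepProperty K Γ) (H : Action gr D Γ) {ι : A →ₐ[K] C} {ι' : A →ₐ[K] C'}
    {γ : C →ₗ[K] A} {γ' : C' →ₗ[K] A} {s : ℕ} (H₁ : ActionOn H ι γ s) (H₂ : ActionOn H ι' γ' s)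
    (tr : C →ₗ[K] K) (r : ℕ) (G N : Submodule K A) (GC NC : Submodule K C)
    (GC' NC' : Submodule K C') : Prop :=
  (Tate R H.cyc H₁.act r (img ι ⊓ GC) NC ↔ Tate R H.cyc H₂.act r (img ι' ⊓ GC') NC') ∧
  (Tate R H.cyc H.act r G N → Tate R H.cyc H₁.act r (img ι ⊓ GC) NC) ∧
  (R.PassesToQuotients → (Tate R H.cyc H₁.act r GC NC ↔
    Tate R H.cyc H₁.act r (img ι ⊓ GC) NC ∧ Tate R H.cyc H₁.act r (perp tr (img ι) ⊓ GC) NC))

/-- The elements `φ c z` with `c` in `S` and `z` in `T`. -/
def images (φ : A → C' →ₗ[K] C) (S : Submodule K A) (T : Submodule K C') : Set C :=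
  {x | ∃ c ∈ S, ∃ z ∈ T, φ c z = x}

end Alg

variable {k : Type u} [Field k] {𝒱 : VarClass k} {ops : CycleOps 𝒱}

/-- The part `N^r H^j(X)` of coniveau at least `r` of `H^j(X)`: the sum of the images of the groups
`H^(j - 2 s)(Z)`, for all `s ≥ r` and all varieties `Z`, under the `K`-linear combinations of the
classes of algebraic cycles of codimension `dim Z + s` on `Z × X`. -/
def coniveau (W : WeilCohomology.{u, v} ops) (X : 𝒱.Obj) (r j : ℕ) : Submodule W.K (W.H X) :=
  Submodule.span W.K {x | ∃ (s a : ℕ) (Z : 𝒱.Obj), r ≤ s ∧ a + 2 * s = j ∧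
    x ∈ images W.corr (spanCycles W (Z.prod X) (Z.dim + s)) (W.gr Z a)}

variable {W : WeilCohomology.{u, v} ops}

/-- The analogue of the conjecture A for the coniveau filtration, in the degrees `j = t + 2 r` with
`j ≤ m = dim Y`: if `x ∈ H^j(Y)` and `L^(m - j) x` has coniveau at least `r + m - j`, then `x` has
coniveau at least `r`. For `t = 0` this is the conjecture A. -/
def ConiveauA (F : Family W) (t : ℕ) : Prop :=
  FiltrationA (W.gr F.Y) (coniveau W F.Y) (W.cl F.Y F.L) F.Y.dim t

variable {F : Family W}

/-- The cohomology of the fibre is the direct sum of the fixed part and its orthogonal complement,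
and a class of degree `t + 2 r` is of coniveau at least `r` if and only if its component in the
fixed part is the restriction of a class of coniveau at least `r` on the total space and its
component in the complement is of coniveau at least `r`. -/
def ConiveauSplits (P : SmoothFibre F) (t r : ℕ) : Prop :=
  SplitsBy (W.map P.i) (W.tr P.P) (coniveau W F.Y r (t + 2 * r)) (coniveau W P.P r (t + 2 * r))

/-- A class of degree `t + 2 r` on the total space restricts to zero on one fibre if and only if it
restricts to zero on the other, and to a class of coniveau at least `r` on one fibre if and only if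
it does on the other. -/
def ConiveauConstant (P P' : SmoothFibre F) (t r : ℕ) : Prop :=
  SameCondition (W.gr F.Y (t + 2 * r)) (W.map P.i) (W.map P'.i) (coniveau W P.P r (t + 2 * r))
    (coniveau W P'.P r (t + 2 * r))

/-- The classes of the divisors `f^*D`, `E` and `L` on the total space. -/
def divisors (F : Family W) : Set (W.H F.Y) :=
  {x | ∃ z, (z = ops.pull F.f F.D ∨ z = F.E ∨ z = F.L) ∧ W.cl F.Y z = x}

/-- The group `Γ` acts on the cohomology of the total space and by a character on `K(1)`,
compatibly with the degrees and with the classes of the divisors `D`, `E` and `L`. -/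
def GaloisAction (F : Family W) (Γ : Type w) [Group Γ] := Action (W.gr F.Y) (divisors F) Γ

/-- The group `Γ` acts on the cohomology of the fibre, compatibly with the restriction and the
push-forward. -/
def FibreAction {Γ : Type w} [Group Γ] (G : GaloisAction F Γ) (P : SmoothFibre F) :=
  ActionOn G (W.map P.i) (W.push P.i) F.S.dim

/-- The generalized Tate conjecture for the cohomology of the total space in degree `t + 2 r`, as an
equality of the two filtrations. -/
def TateTotal {Γ : Type w} [Group Γ] (R : RepProperty W.K Γ) (G : GaloisAction F Γ) (t r : ℕ) :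
    Prop :=
  Total R G r (W.gr F.Y (t + 2 * r)) (coniveau W F.Y r (t + 2 * r))

/-- The generalized Tate conjecture for the fixed part of the first fibre is equivalent to the one
for the second fibre and follows from the one for the total space; for the whole cohomology of the
first fibre it is equivalent to the one for the fixed part and its orthogonal complement, if the
property `R` passes to quotients. -/
def TateCompares {Γ : Type w} [Group Γ] (R : RepProperty W.K Γ) {G : GaloisAction F Γ}
    {P P' : SmoothFibre F} (A : FibreAction G P) (A' : FibreAction G P') (t r : ℕ) : Prop :=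
  Compares R G A A' (W.tr P.P) r (W.gr F.Y (t + 2 * r)) (coniveau W F.Y r (t + 2 * r))
    (W.gr P.P (t + 2 * r)) (coniveau W P.P r (t + 2 * r)) (W.gr P'.P (t + 2 * r))
    (coniveau W P'.P r (t + 2 * r))

end Pool.Agent.W498.Niv
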