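import Pool.Agent.W498.Tat.Main
import Pool.Agent.W498.Spl.Main
import Pool.Agent.W498.Niv.Defs

/-!
# The coniveau filtration and correspondences
-/

open CategoryTheory AlgebraicGeometry Finset

set_option linter.unusedSectionVars false

universe u v

namespace Pool.Agent.W498.Niv

open Pool.Agent.H914 Pool.Agent.H447 VarClass Obj WeilCohomology Pool.Agent.W498.Dom
  Pool.Agent.W534 Pool.Agent.W498.Tat Pool.Agent.W550.B

variable {k : Type u} [Field k] {𝒱 : VarClass k} {ops : CycleOps 𝒱}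
  {W : WeilCohomology.{u, v} ops} {X Y : 𝒱.Obj}

/-- The coniveau filtration with integral indices. -/
def con (W : WeilCohomology.{u, v} ops) (X : 𝒱.Obj) (r j : ℤ) : Submodule W.K (W.H X) :=
  Submodule.span W.K {x | ∃ (s : ℤ) (a : ℕ) (Z : 𝒱.Obj), r ≤ s ∧ (a : ℤ) + 2 * s = j ∧
    ∃ T ∈ KOp W Z X s, ∃ z ∈ W.gr Z a, T z = x}

lemma coniveau_eq (r j : ℕ) : coniveau W X r j = con W X r j := by
  rw [coniveau, con]
  congr 1
  ext x
  constructor
  · rintro ⟨s, a, Z, hs, ha, ⟨c, hc, z, hz, rfl⟩⟩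
    exact ⟨s, a, Z, by exact_mod_cast hs, by exact_mod_cast ha, W.corr c,
      mem_KOp_iff.2 ⟨c, hc, rfl⟩, z, hz, rfl⟩
  · rintro ⟨s, a, Z, hs, ha, T, hT, z, hz, rfl⟩
    obtain ⟨s', rfl⟩ := Int.eq_ofNat_of_zero_le (show 0 ≤ s by omega)
    obtain ⟨c, hc, rfl⟩ := mem_KOp_iff.1 hT
    exact ⟨s', a, Z, by omega, by omega, ⟨c, hc, z, hz, rfl⟩⟩

lemma con_le (r j : ℤ) : con W X r j ≤ grZ (W.gr X) j := by
  rw [con, Submodule.span_le]
  rintro _ ⟨s, a, Z, -, ha, T, hT, z, hz, rfl⟩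
  have := KOp.isHom hT (a : ℤ) z (by rw [grZ_natCast]; exact hz)
  rwa [ha] at this

lemma con_kop {r j d : ℤ} {T : W.H X →ₗ[W.K] W.H Y} (hT : T ∈ KOp W X Y d) {x : W.H X}
    (hx : x ∈ con W X r j) : T x ∈ con W Y (r + d) (j + 2 * d) := by
  induction hx using Submodule.span_induction with
  | mem x hx =>
    obtain ⟨s, a, Z, hs, ha, T', hT', z, hz, rfl⟩ := hx
    exact Submodule.subset_span ⟨s + d, a, Z, by omega, by omega, T ∘ₗ T', KOp.comp hT hT',
      z, hz, rfl⟩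
  | zero => rw [map_zero]; exact Submodule.zero_mem _
  | add x y _ _ hx hy => rw [map_add]; exact Submodule.add_mem _ hx hy
  | smul c x _ hx => rw [map_smul]; exact Submodule.smul_mem _ _ hx

lemma con_mono {r r' j : ℤ} (h : r ≤ r') : con W X r' j ≤ con W X r j := by
  apply Submodule.span_mono
  rintro _ ⟨s, a, Z, hs, h'⟩
  exact ⟨s, a, Z, by omega, h'⟩

lemma con_of_nonpos {r j : ℤ} (hr : r ≤ 0) : con W X r j = grZ (W.gr X) j := by
  apply le_antisymm (con_le r j)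
  intro x hx
  by_cases hj : 0 ≤ j
  · lift j to ℕ using hj
    rw [grZ_natCast] at hx
    exact Submodule.subset_span ⟨0, j, X, hr, by ring, LinearMap.id, KOp.id X, x, hx, rfl⟩
  · rw [grZ_of_neg (by omega)] at hx
    rw [(Submodule.mem_bot _).1 hx]
    exact Submodule.zero_mem _

/-- The graded subspace of the parts of coniveau `(j - t) / 2` of the groups `H^j(X)`. -/
def cGr (W : WeilCohomology.{u, v} ops) (t : ℕ) (X : 𝒱.Obj) (j : ℕ) : Submodule W.K (W.H X) :=
  if (2 : ℤ) ∣ (j : ℤ) - t then con W X (((j : ℤ) - t) / 2) j else ⊥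

lemma cGr_of {t j : ℕ} {r : ℤ} (h : (t : ℤ) + 2 * r = j) : cGr W t X j = con W X r j := by
  rw [cGr, if_pos ⟨r, by omega⟩]
  congr 1
  omega

lemma cGr_bot {t j : ℕ} (h : ∀ r : ℤ, (t : ℤ) + 2 * r ≠ j) : cGr W t X j = ⊥ := by
  rw [cGr, if_neg]
  rintro ⟨r, hr⟩
  exact h r (by omega)

lemma cGr_coniveau {t r : ℕ} : cGr W t X (t + 2 * r) = coniveau W X r (t + 2 * r) := by
  rw [coniveau_eq, cGr_of (r := r) (by push_cast; ring)]

lemma cGr_le (t j : ℕ) : cGr W t X j ≤ W.gr X j := by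
  by_cases h : ∃ r : ℤ, (t : ℤ) + 2 * r = j
  · obtain ⟨r, hr⟩ := h
    rw [cGr_of hr, ← grZ_natCast (gr := W.gr X)]
    exact con_le _ _
  · push Not at h
    rw [cGr_bot h]
    exact bot_le

lemma cGr_kop {t : ℕ} {d : ℤ} {T : W.H X →ₗ[W.K] W.H Y} (hT : T ∈ KOp W X Y d) (j : ℕ)
    {x : W.H X} (hx : x ∈ cGr W t X j) : T x ∈ grZ (cGr W t Y) (j + 2 * d) := by
  by_cases h : ∃ r : ℤ, (t : ℤ) + 2 * r = j
  · obtain ⟨r, hr⟩ := h
    rw [cGr_of hr] at hx
    have h1 := con_kop hT hx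
    by_cases hj : 0 ≤ (j : ℤ) + 2 * d
    · obtain ⟨j', hj'⟩ := Int.eq_ofNat_of_zero_le hj
      rw [hj'] at h1 ⊢
      rw [grZ_natCast, cGr_of (r := r + d) (by omega)]
      exact h1
    · have h2 := con_le _ _ h1
      rw [grZ_of_neg (by omega)] at h2 ⊢
      exact h2
  · push Not at h
    rw [cGr_bot h] at hx
    rw [(Submodule.mem_bot _).1 hx, map_zero]
    exact Submodule.zero_mem _

lemma isHom_cGr {t : ℕ} {d : ℤ} {T : Module.End W.K (W.H X)} (hT : T ∈ KOp W X X d) :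
    IsHom (cGr W t X) (2 * d) T := by
  intro j a ha
  by_cases hj : 0 ≤ j
  · lift j to ℕ using hj
    rw [grZ_natCast] at ha
    exact cGr_kop hT j ha
  · rw [grZ_of_neg (by omega)] at ha
    rw [(Submodule.mem_bot _).1 ha, map_zero]
    exact Submodule.zero_mem _

/-- The symmetry of the dimensions. -/
def Sym (W : WeilCohomology.{u, v} ops) (t : ℕ) (X : 𝒱.Obj) : Prop :=
  ∀ c ≤ X.dim, Module.finrank W.K (cGr W t X (X.dim + c)) ≤
    Module.finrank W.K (cGr W t X (X.dim - c))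

lemma sym_of_inj (t : ℕ) (h : Inj W X) : Sym W t X := by
  intro c hc
  obtain ⟨ν, hν, hνi⟩ := h c hc
  apply finrank_le_of_inj (T := ν)
  · intro x hx
    have := cGr_kop (t := t) hν _ hx
    rwa [show ((X.dim + c : ℕ) : ℤ) + 2 * -(c : ℤ) = ((X.dim - c : ℕ) : ℤ) by omega,
      grZ_natCast] at this
  · intro x hx h0
    exact hνi x (cGr_le _ _ hx) h0

lemma sym_of_A {F : Family W} {t : ℕ} (hA : ConiveauA F t) : Sym W t F.Y := by
  intro c hc
  by_cases h : ∃ r : ℤ, (t : ℤ) + 2 * r = (F.Y.dim - c : ℕ)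
  swap
  · push Not at h
    rw [cGr_bot (j := F.Y.dim + c) (by intro r hr; apply h (r - c); omega), finrank_bot]
    exact Nat.zero_le _
  obtain ⟨r, hr⟩ := h
  rw [cGr_of hr, cGr_of (j := F.Y.dim + c) (r := r + c) (by omega)]
  have hL := F.hardLef (F.Y.dim - c) (by omega)
  rw [show F.Y.dim - (F.Y.dim - c) = c by omega,
    show 2 * F.Y.dim - (F.Y.dim - c) = F.Y.dim + c by omega] at hL
  rcases le_or_gt r 0 with hr0 | hr0
  · rw [con_of_nonpos hr0, grZ_natCast]
    refine (Submodule.finrank_mono (con_le _ _)).trans ?_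
    rw [grZ_natCast]
    have := betti_symm (X := F.Y) W (i := F.Y.dim - c) (by omega)
    rw [show 2 * F.Y.dim - (F.Y.dim - c) = F.Y.dim + c by omega] at this
    exact this.le
  · obtain ⟨r', rfl⟩ := Int.eq_ofNat_of_zero_le hr0.le
    have e1 : F.Y.dim - c = t + 2 * r' := by omega
    have hsurj : ∀ b ∈ con W F.Y (r' + c) (F.Y.dim + c : ℕ), ∃ a ∈ con W F.Y r' (F.Y.dim - c : ℕ),
        W.cl F.Y F.L ^ c * a = b := by
      intro b hb
      have hb' := con_le _ _ hb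
      rw [grZ_natCast] at hb'
      obtain ⟨a, ha, hab⟩ := hL.2 b hb'
      rw [LinearMap.pow_mulLeft, LinearMap.mulLeft_apply] at hab
      refine ⟨a, ?_, hab⟩
      have h1 := hA r' (by omega) a (by rwa [← e1]) (by
        rw [← e1, show F.Y.dim - (F.Y.dim - c) = c by omega, hab, coniveau_eq,
          show 2 * F.Y.dim - (F.Y.dim - c) = F.Y.dim + c by omega]
        push_cast
        push_cast at hb
        exact hb)
      rw [coniveau_eq, ← e1] at h1
      exact h1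
    have h2 : con W F.Y (r' + c) (F.Y.dim + c : ℕ) ≤
        (con W F.Y r' (F.Y.dim - c : ℕ)).map (LinearMap.mulLeft W.K (W.cl F.Y F.L ^ c)) := by
      intro b hb
      obtain ⟨a, ha, hab⟩ := hsurj b hb
      exact ⟨a, ha, hab⟩
    exact (Submodule.finrank_mono h2).trans (Submodule.finrank_map_le _ _)

/-- Lowering operators of pencils preserve the coniveau. -/
lemma con_lower {S : 𝒱.Obj} {f : Y ⟶ S} {D : S.Cycles} {E : Y.Cycles} (hD : S.IsCyc 1 D)
    (hE : Y.IsCyc 1 E) {t : ℕ} (hY : Sym W t Y) (a : W.K)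
    (hl : HardLef (W.gr Y) Y.dim (hop W f D + a • eop W Y E)) :
    ∃ F, Sl2 (wt (W.isInternal Y) Y.dim) (hop W f D + a • eop W Y E) F ∧
      IsHom (cGr W t Y) (-2) F := by
  have hk : hop W f D + a • eop W Y E ∈ KOp W Y Y 1 :=
    Submodule.add_mem _ (kop_hop hD) (Submodule.smul_mem _ _ (kop_L hE))
  have hh : IsHom (cGr W t Y) 2 (hop W f D + a • eop W Y E) := by
    have := isHom_cGr (t := t) hk
    rwa [mul_one] at this
  apply exists_stable_lower (W.isInternal Y) W_hbd ((isHom_hop hD).add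
    ((isHom_mulLeft W hE).smul _)) hl (cGr_le t) hh
  intro c hc
  have hT : ∀ x ∈ cGr W t Y (Y.dim - c), ((hop W f D + a • eop W Y E) ^ c) x ∈
      cGr W t Y (Y.dim + c) := by
    intro x hx
    have := pow_L_mem hh hx c
    rwa [show Y.dim - c + 2 * c = Y.dim + c by omega] at this
  have hinj : ∀ x ∈ cGr W t Y (Y.dim - c), ((hop W f D + a • eop W Y E) ^ c) x = 0 → x = 0 := by
    intro x hx h0
    apply (hl (Y.dim - c) (by omega)).1 x (cGr_le _ _ hx)
    rwa [show Y.dim - (Y.dim - c) = c by omega]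
  exact surj_of_finrank_eq hT hinj (le_antisymm (finrank_le_of_inj hT hinj) (hY c hc))

end Pool.Agent.W498.Niv
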