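import Pool.Agent.W498.Niv.Main

/-!
# The generalized Tate conjecture for the fixed part
-/

open CategoryTheory AlgebraicGeometry Finset

set_option linter.unusedSectionVars false

universe u v w

namespace Pool.Agent.W498.Niv

open Pool.Agent.H914 Pool.Agent.H447 VarClass Obj WeilCohomology Pool.Agent.W498.Dom
  Pool.Agent.W534 Pool.Agent.W498.Tat Pool.Agent.W550.B Pool.Agent.W498.Spl

section Alg

variable {K A B C : Type v} {Γ : Type w} [Field K] [Group Γ] [Ring A] [Algebra K A] [Ring B]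
    [Algebra K B] [Ring C] [Algebra K C] {R : RepProperty K Γ}
    {cyc : Γ →* Kˣ} {ρ : Γ →* Module.End K A} {ρB : Γ →* Module.End K B}
    {ρC : Γ →* Module.End K C} {r : ℕ}

/-- Transfer of the inclusions of the stable subspaces with a given property. -/
lemma transfer {ι : A →ₗ[K] B} {ι' : A →ₗ[K] C} {G : Submodule K A} {IB NB : Submodule K B}
    {IC NC : Submodule K C} (hG : IsStable ρ G) (h1 : ∀ σ y, ι (ρ σ y) = ρB σ (ι y))
    (h2 : ∀ σ y, ι' (ρ σ y) = ρC σ (ι' y)) (hker : ∀ y ∈ G, ι y = 0 ↔ ι' y = 0)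
    (hIB : ∀ y ∈ G, ι y ∈ IB) (hIC : ∀ x ∈ IC, ∃ y ∈ G, ι' y = x)
    (hN : ∀ y ∈ G, ι y ∈ NB → ι' y ∈ NC) (h : Tate R cyc ρB r IB NB) :
    Tate R cyc ρC r IC NC := by
  intro V' hV' hst hR
  set U : Submodule K A := G ⊓ V'.comap ι' with hU
  set V : Submodule K B := U.map ι with hV
  have hUst : IsStable ρ U := by
    rintro σ y ⟨hy, hy'⟩
    refine ⟨hG σ y hy, ?_⟩
    rw [Submodule.comap_coe, Set.mem_preimage, h2]
    exact hst σ _ hy'
  have hVst : IsStable ρB V := by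
    rintro σ _ ⟨y, hy, rfl⟩
    exact ⟨ρ σ y, hUst σ y hy, h1 σ y⟩
  set f : U →ₗ[K] V := (ι ∘ₗ U.subtype).codRestrict V (fun u => ⟨u, u.2, rfl⟩) with hf
  set f' : U →ₗ[K] V' := (ι' ∘ₗ U.subtype).codRestrict V' (fun u => u.2.2) with hf'
  have hfs : Function.Surjective f := by
    rintro ⟨_, y, hy, rfl⟩
    exact ⟨⟨y, hy⟩, rfl⟩
  have hfs' : Function.Surjective f' := by
    rintro ⟨x, hx⟩
    obtain ⟨y, hy, rfl⟩ := hIC x (hV' hx)
    exact ⟨⟨y, hy, hx⟩, rfl⟩
  have hk : LinearMap.ker f' = LinearMap.ker f := by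
    ext ⟨y, hy⟩
    rw [LinearMap.mem_ker, LinearMap.mem_ker, ← Subtype.coe_inj, ← Subtype.coe_inj]
    exact (hker y hy.1).symm
  set e : V' ≃ₗ[K] V := (f'.quotKerEquivOfSurjective hfs').symm ≪≫ₗ
    Submodule.quotEquivOfEq _ _ hk ≪≫ₗ f.quotKerEquivOfSurjective hfs with he
  have hef : ∀ u, e (f' u) = f u := by
    intro u
    have h3 : (f'.quotKerEquivOfSurjective hfs').symm (f' u) = Submodule.Quotient.mk u := by
      rw [LinearEquiv.symm_apply_eq]
      rfl
    rw [he, LinearEquiv.trans_apply, LinearEquiv.trans_apply, h3]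
    rfl
  have h3 : R.holds V (twistedRep cyc ρB r V hVst) := by
    refine R.iso V' V (twistedRep cyc ρC r V' hst) (twistedRep cyc ρB r V hVst) e.toLinearMap ?_
      e.bijective hR
    intro σ x
    simp only [LinearEquiv.coe_coe]
    obtain ⟨u, rfl⟩ := hfs' x
    have h4 : twistedRep cyc ρC r V' hst σ (f' u) =
        ((cyc σ : K) ^ r) • f' ⟨ρ σ u, hUst σ u u.2⟩ := by
      apply Subtype.ext
      exact congrArg (fun z => ((cyc σ : K) ^ r) • z) (h2 σ u).symm
    rw [h4, map_smul, hef, hef]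
    apply Subtype.ext
    exact congrArg (fun z => ((cyc σ : K) ^ r) • z) (h1 σ u)
  have h4 : V ≤ NB := by
    refine h V ?_ hVst h3
    rintro _ ⟨y, hy, rfl⟩
    exact hIB y hy.1
  intro x hx
  obtain ⟨y, hy, rfl⟩ := hIC x (hV' hx)
  exact hN y hy (h4 ⟨y, ⟨hy, hx⟩, rfl⟩)

/-- The image of a stable subspace under a map which is injective on it and equivariant up to a
power of the cyclotomic character. -/
lemma holds_map {T : A →ₗ[K] B} {c : ℕ} {V : Submodule K A}
    (hT : ∀ σ, ∀ x ∈ V, ((cyc σ : K) ^ c) • ρB σ (T x) = T (ρ σ x)) (hi : ∀ x ∈ V, T x = 0 → x = 0)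
    (hst : IsStable ρ V) (hst' : IsStable ρB (V.map T)) {r' : ℕ} (hr : r' = r + c)
    (h : R.holds V (twistedRep cyc ρ r V hst)) :
    R.holds (V.map T) (twistedRep cyc ρB r' (V.map T) hst') := by
  subst hr
  have hbij : Function.Bijective
      ((T ∘ₗ V.subtype).codRestrict (V.map T) (fun v => ⟨v, v.2, rfl⟩)) := by
    constructor
    · rw [← LinearMap.ker_eq_bot, LinearMap.ker_eq_bot']
      rintro ⟨x, hx⟩ h0
      have h1 : T x = 0 := congrArg Subtype.val h0
      apply Subtype.ext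
      exact hi x hx h1
    · rintro ⟨_, x, hx, rfl⟩
      exact ⟨⟨x, hx⟩, rfl⟩
  refine R.iso V (V.map T) (twistedRep cyc ρ r V hst) (twistedRep cyc ρB (r + c) _ hst') _ ?_
    hbij h
  intro σ x
  apply Subtype.ext
  change T (((cyc σ : K) ^ r) • ρ σ x) = ((cyc σ : K) ^ (r + c)) • ρB σ (T x)
  rw [map_smul, ← hT σ x x.2, smul_smul, pow_add]

/-- The converse. -/
lemma holds_of_map {T : A →ₗ[K] B} {c : ℕ} {V : Submodule K A} {V' : Submodule K B}
    (hT : ∀ σ, ∀ x ∈ V, ((cyc σ : K) ^ c) • ρB σ (T x) = T (ρ σ x)) (hi : ∀ x ∈ V, T x = 0 → x = 0)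
    (hst : IsStable ρ V) (hst' : IsStable ρB V') (hV : V.map T = V')
    (h : R.holds V' (twistedRep cyc ρB (r + c) V' hst')) :
    R.holds V (twistedRep cyc ρ r V hst) := by
  subst hV
  have hbij : Function.Bijective
      ((T ∘ₗ V.subtype).codRestrict (V.map T) (fun v => ⟨v, v.2, rfl⟩)) := by
    constructor
    · rw [← LinearMap.ker_eq_bot, LinearMap.ker_eq_bot']
      rintro ⟨x, hx⟩ h0
      have h1 : T x = 0 := congrArg Subtype.val h0
      apply Subtype.ext
      exact hi x hx h1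
    · rintro ⟨_, x, hx, rfl⟩
      exact ⟨⟨x, hx⟩, rfl⟩
  set e := LinearEquiv.ofBijective _ hbij with he
  have key : ∀ σ x, e (twistedRep cyc ρ r V hst σ x) =
      twistedRep cyc ρB (r + c) _ hst' σ (e x) := by
    intro σ x
    apply Subtype.ext
    change T (((cyc σ : K) ^ r) • ρ σ x) = ((cyc σ : K) ^ (r + c)) • ρB σ (T x)
    rw [map_smul, ← hT σ x x.2, smul_smul, pow_add]
  refine R.iso (V.map T) V (twistedRep cyc ρB (r + c) _ hst') (twistedRep cyc ρ r V hst)
    e.symm.toLinearMap (fun σ x => ?_) e.symm.bijective h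
  rw [LinearEquiv.coe_coe, LinearEquiv.symm_apply_eq, key, LinearEquiv.apply_symm_apply]

/-- The decomposition of the inclusions for a property which passes to quotients. -/
lemma contained_of_split (hR : R.PassesToQuotients) {I J G N : Submodule K A}
    (hI : IsStable ρ I) (hJ : IsStable ρ J) (hIJ : IsCompl I J)
    (hG : ∀ x ∈ I, ∀ y ∈ J, x + y ∈ G → x ∈ G) (h : Tate R cyc ρ r (I ⊓ G) N)
    (V : Submodule K A) (hV : V ≤ G) (hst : IsStable ρ V)
    (hRV : R.holds V (twistedRep cyc ρ r V hst)) :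
    ∀ x ∈ I, ∀ y ∈ J, x + y ∈ V → x ∈ N := by
  have hdec : ∀ x : A, ∃ a ∈ I, ∃ b ∈ J, a + b = x := fun x =>
    Submodule.mem_sup.1 (show x ∈ I ⊔ J by rw [hIJ.sup_eq_top]; trivial)
  obtain ⟨p, hp1, hp2⟩ : ∃ p : Module.End K A, (∀ x ∈ I, p x = x) ∧ ∀ x ∈ J, p x = 0 := by
    refine ⟨I.subtype ∘ₗ Submodule.projectionOnto _ _ hIJ, fun x hx => ?_, fun x hx => ?_⟩
    · have := Submodule.projectionOnto_apply_left hIJ ⟨x, hx⟩
      exact congrArg Subtype.val this
    · have := Submodule.projectionOnto_apply_right hIJ ⟨x, hx⟩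
      rw [LinearMap.comp_apply]
      exact congrArg Subtype.val this
  have hpσ : ∀ σ x, p (ρ σ x) = ρ σ (p x) := by
    intro σ x
    obtain ⟨a, ha, b, hb, rfl⟩ := hdec x
    rw [map_add, map_add, map_add, hp1 _ (hI σ a ha), hp2 _ (hJ σ b hb), hp1 a ha, hp2 b hb,
      add_zero, add_zero]
  have hst' : IsStable ρ (V.map p) := by
    rintro σ _ ⟨y, hy, rfl⟩
    exact ⟨ρ σ y, hst σ y hy, hpσ σ y⟩
  have h1 : R.holds (V.map p) (twistedRep cyc ρ r (V.map p) hst') := by
    refine hR V (V.map p) (twistedRep cyc ρ r V hst) (twistedRep cyc ρ r _ hst')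
      ((p ∘ₗ V.subtype).codRestrict (V.map p) (fun v => ⟨v, v.2, rfl⟩)) ?_ ?_ hRV
    · intro σ x
      apply Subtype.ext
      change p (((cyc σ : K) ^ r) • ρ σ x) = ((cyc σ : K) ^ r) • ρ σ (p x)
      rw [map_smul, hpσ]
    · rintro ⟨_, y, hy, rfl⟩
      exact ⟨⟨y, hy⟩, rfl⟩
  have h2 : V.map p ≤ N := by
    refine h _ ?_ hst' h1
    rintro _ ⟨y, hy, rfl⟩
    obtain ⟨a, ha, b, hb, rfl⟩ := hdec y
    rw [map_add, hp1 a ha, hp2 b hb, add_zero]
    exact ⟨ha, hG a ha b hb (hV hy)⟩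
  intro x hx y hy hxy
  apply h2
  refine ⟨x + y, hxy, ?_⟩
  rw [map_add, hp1 x hx, hp2 y hy, add_zero]

end Alg

variable {k : Type u} [Field k] {𝒱 : VarClass k} {ops : CycleOps 𝒱}
  {W : WeilCohomology.{u, v} ops} {F : Family W} {P P' : SmoothFibre F} {t : ℕ}

/-- The conjecture B implies the analogue of the conjecture A. -/
theorem coniveauA_of_B (hB : LefschetzB W F.Y F.L) : ConiveauA F t := by
  intro r hr x hx hxL
  set c := F.Y.dim - (t + 2 * r) with hc
  have hR := (rop_opAlg (W := W) (X := F.Y))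
  have hLk : LinearMap.mulLeft W.K (W.cl F.Y F.L) ∈ KS (ROp W F.Y) 1 :=
    mem_KS_iff.2 (kop_L F.cyc_L)
  obtain ⟨ν, hν, hinj⟩ := inj_of_lefschetzB F.cyc_L F.hardLef hB c (by omega)
  obtain ⟨θ, hθ, hθ'⟩ := hR.exists_theta_of_inj hLk F.hardLef (by omega) (mem_KS_iff.2 hν) hinj
  have h1 := hθ' x (by rw [hc, show F.Y.dim - (F.Y.dim - (t + 2 * r)) = t + 2 * r by omega]
                       exact hx)
  rw [LinearMap.pow_mulLeft, LinearMap.mulLeft_apply] at h1
  rw [← h1, coniveau_eq]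
  rw [coniveau_eq] at hxL
  have h2 := con_kop (mem_KS_iff.1 hθ) hxL
  have e1 : ((r + c : ℕ) : ℤ) + -(c : ℤ) = r := by push_cast; ring
  have e2 : ((2 * F.Y.dim - (t + 2 * r) : ℕ) : ℤ) + 2 * -(c : ℤ) = ((t + 2 * r : ℕ) : ℤ) := by
    omega
  rwa [e1, e2] at h2

/-- **The coniveau of the components.** -/
theorem coniveauSplits (hF : Sym W t F.Y) (P : SmoothFibre F) (r : ℕ) :
    ConiveauSplits P t r := by
  refine ⟨fixed_isCompl F.cyc_D F.cyc_E P.smooth, fun x hx y hy => ?_⟩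
  rw [← cGr_coniveau, ← cGr_coniveau]
  exact con_components F.cyc_D F.cyc_E P.smooth hF hx hy

/-- **The coniveau is constant.** -/
theorem coniveauConstant (hF : Sym W t F.Y) (P P' : SmoothFibre F) (r : ℕ) :
    ConiveauConstant P P' t r := by
  have key : ∀ (P P' : SmoothFibre F), ∀ y ∈ W.gr F.Y (t + 2 * r),
      W.map P.i y ∈ coniveau W P.P r (t + 2 * r) →
      W.map P'.i y ∈ coniveau W P'.P r (t + 2 * r) := by
    intro P P' y hy h
    have h1 := ((coniveauSplits hF P r).2 (W.map P.i y) ⟨y, rfl⟩ 0 (Submodule.zero_mem _)).1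
      (by rwa [add_zero])
    obtain ⟨z, hz, hzy⟩ := h1.1
    have hzg : z ∈ W.gr F.Y (t + 2 * r) := cGr_le t _ (by rw [cGr_coniveau]; exact hz)
    have h2 : W.map P'.i (z - y) = 0 := by
      refine restr_zero P P' (Submodule.sub_mem _ hzg hy) ?_
      rw [map_sub, sub_eq_zero]
      exact hzy
    rw [map_sub, sub_eq_zero] at h2
    rw [← h2]
    have h3 := ((coniveauSplits hF P' r).2 (W.map P'.i z) ⟨z, rfl⟩ 0 (Submodule.zero_mem _)).2
      ⟨⟨z, hz, rfl⟩, Submodule.zero_mem _⟩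
    rwa [add_zero] at h3
  intro y hy
  exact ⟨⟨restr_zero P P' hy, restr_zero P' P hy⟩, key P P' y hy, key P' P y hy⟩

variable {Γ : Type w} [Group Γ] {G : GaloisAction F Γ} (A : FibreAction G P)
  (A' : FibreAction G P') (R : RepProperty W.K Γ)

/-- **The generalized Tate conjecture for the fixed parts of two fibres.** -/
theorem tateFixed_iff (hF : Sym W t F.Y) (r : ℕ) :
    Tate R G.cyc A.act r (fixedPart W P.i ⊓ W.gr P.P (t + 2 * r))
      (coniveau W P.P r (t + 2 * r)) ↔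
    Tate R G.cyc A'.act r (fixedPart W P'.i ⊓ W.gr P'.P (t + 2 * r))
      (coniveau W P'.P r (t + 2 * r)) := by
  have hc := coniveauConstant hF P P' r
  constructor
  · refine transfer (ρ := G.act) (ι := (W.map P.i).toLinearMap)
      (ι' := (W.map P'.i).toLinearMap) (G := W.gr F.Y (t + 2 * r))
      (fun σ y hy => G.degree σ _ y hy) A.map_act A'.map_act (fun y hy => (hc y hy).1)
      (fun y hy => ⟨⟨y, rfl⟩, W.map_mem _ hy⟩) (fun x hx => exists_lift hx.1 hx.2)
      (fun y hy => (hc y hy).2.1)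
  · refine transfer (ρ := G.act) (ι := (W.map P'.i).toLinearMap)
      (ι' := (W.map P.i).toLinearMap) (G := W.gr F.Y (t + 2 * r))
      (fun σ y hy => G.degree σ _ y hy) A'.map_act A.map_act (fun y hy => (hc y hy).1.symm)
      (fun y hy => ⟨⟨y, rfl⟩, W.map_mem _ hy⟩) (fun x hx => exists_lift hx.1 hx.2)
      (fun y hy => (hc y hy).2.2)

lemma stable_fixed : IsStable A.act (fixedPart W P.i) := by
  rintro σ _ ⟨y, rfl⟩
  exact ⟨G.act σ y, A.map_act σ y⟩

lemma stable_perp : IsStable A.act (fixedPerp W P.i) := by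
  intro σ x hx
  rw [mem_perp_iff] at hx ⊢
  rw [← A.push_act, hx, map_zero, smul_zero]

/-- **From the total space to the fixed part of a fibre.** -/
theorem tateFixed_of_total (hF : Sym W t F.Y) (r : ℕ)
    (h : Tate R G.cyc G.act r (W.gr F.Y (t + 2 * r)) (coniveau W F.Y r (t + 2 * r))) :
    Tate R G.cyc A.act r (fixedPart W P.i ⊓ W.gr P.P (t + 2 * r))
      (coniveau W P.P r (t + 2 * r)) := by
  obtain ⟨T, hT1, hT2, hT3, hT4, hT5⟩ := exists_inj_con F.cyc_D F.cyc_E P.smooth hF (t + 2 * r)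
  have hTσ : ∀ σ x, G.act σ (T x) = T (A.act σ x) := by
    intro σ
    have hc : (G.cyc σ : W.K) ≠ 0 := (G.cyc σ).ne_zero
    refine hT5 (G.act σ) (A.act σ) (G.cyc σ : W.K)⁻¹ (inv_ne_zero hc) (G.degree σ) ?_ ?_ ?_
    · intro y
      rw [← G.mul_act σ _ ⟨_, Or.inl rfl, W.cl_pull _ _⟩, smul_smul, inv_mul_cancel₀ hc, one_smul]
    · intro y
      rw [← G.mul_act σ _ ⟨_, Or.inr (Or.inl rfl), rfl⟩, smul_smul, inv_mul_cancel₀ hc, one_smul]
    · intro x
      rw [← A.push_act, smul_smul, ← mul_pow, inv_mul_cancel₀ hc, one_pow, one_smul]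
  intro V hV hst hR
  -- the operator on the fibre
  set ρ : Module.End W.K (W.H P.P) := (W.map P.i).toLinearMap ∘ₗ T with hρ
  have hρr : ∀ a ∈ cGr W t P.P (t + 2 * r), ρ a ∈ rGr W t P.i (t + 2 * r) :=
    fun a ha => ⟨T a, hT1 a ha, rfl⟩
  have hρi : ∀ a ∈ fixedPart W P.i, a ∈ W.gr P.P (t + 2 * r) → ρ a = 0 → a = 0 := by
    intro a ha haj h0
    obtain ⟨b, hb, rfl⟩ := exists_lift ha haj
    exact hT3 b hb h0
  have hle : ∀ a ∈ rGr W t P.i (t + 2 * r), a ∈ W.gr P.P (t + 2 * r) :=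
    fun a ha => cGr_le t _ (rGr_le_con t _ ha)
  -- the subspace of the cohomology of the total space
  have hVst : IsStable G.act (V.map T) := by
    rintro σ _ ⟨x, hx, rfl⟩
    exact ⟨A.act σ x, hst σ x hx, (hTσ σ x).symm⟩
  have h1 : V.map T ≤ coniveau W F.Y r (t + 2 * r) := by
    refine h _ ?_ hVst (holds_map (c := 0) (fun σ x _ => ?_) (fun x hx h0 => ?_) hst hVst rfl hR)
    · rintro _ ⟨x, hx, rfl⟩
      exact hT4 x (hV hx).2
    · rw [pow_zero, one_smul]
      exact hTσ σ x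
    · apply hρi x (hV hx).1 (hV hx).2
      rw [hρ, LinearMap.comp_apply, h0, map_zero]
  intro x hx
  have h2 : ρ x ∈ rGr W t P.i (t + 2 * r) := ⟨T x, by rw [cGr_coniveau]; exact h1 ⟨x, hx, rfl⟩, rfl⟩
  obtain ⟨x', hx', hxx'⟩ := surj_of_finrank_eq (A := rGr W t P.i (t + 2 * r))
    (B := rGr W t P.i (t + 2 * r)) (T := ρ) (fun a ha => hρr a (rGr_le_con t _ ha))
    (fun a ha h0 => hρi a (rGr_le_fixed t _ ha) (hle a ha) h0) rfl (ρ x) h2
  have h3 := hρi (x - x') (Submodule.sub_mem _ (hV hx).1 (rGr_le_fixed t _ hx'))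
    (Submodule.sub_mem _ (hV hx).2 (hle _ hx')) (by rw [map_sub, hxx', sub_self])
  rw [sub_eq_zero] at h3
  rw [h3, ← cGr_coniveau]
  exact rGr_le_con t _ hx'

/-- **The generalized Tate conjecture for a fibre.** -/
theorem tate_iff_split (hR : R.PassesToQuotients) (r : ℕ) :
    Tate R G.cyc A.act r (W.gr P.P (t + 2 * r)) (coniveau W P.P r (t + 2 * r)) ↔
    Tate R G.cyc A.act r (fixedPart W P.i ⊓ W.gr P.P (t + 2 * r))
      (coniveau W P.P r (t + 2 * r)) ∧
    Tate R G.cyc A.act r (fixedPerp W P.i ⊓ W.gr P.P (t + 2 * r))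
      (coniveau W P.P r (t + 2 * r)) := by
  have hc := fixed_isCompl F.cyc_D F.cyc_E P.smooth
  constructor
  · intro h
    exact ⟨fun V hV hst hRV => h V (hV.trans inf_le_right) hst hRV,
      fun V hV hst hRV => h V (hV.trans inf_le_right) hst hRV⟩
  · rintro ⟨h1, h2⟩ V hV hst hRV v hv
    obtain ⟨x, hx, y, hy, rfl⟩ := Submodule.mem_sup.1
      (show v ∈ fixedPart W P.i ⊔ fixedPerp W P.i by rw [hc.sup_eq_top]; trivial)
    apply Submodule.add_mem
    · exact contained_of_split hR (stable_fixed A) (stable_perp A) hc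
        (fun x hx y hy h => (gr_components F.cyc_D F.cyc_E P.smooth hx hy h).1) h1 V hV hst hRV
        x hx y hy hv
    · refine contained_of_split hR (stable_perp A) (stable_fixed A) hc.symm
        (fun x hx y hy h => ?_) h2 V hV hst hRV y hy x hx (by rwa [add_comm])
      rw [add_comm x y] at h
      exact (gr_components F.cyc_D F.cyc_E P.smooth hy hx h).2

/-- The powers of the Lefschetz operator and the action. -/
lemma pow_lef (G : GaloisAction F Γ) (σ : Γ) (c : ℕ) (y : W.H F.Y) :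
    ((G.cyc σ : W.K) ^ c) • G.act σ (W.cl F.Y F.L ^ c * y) = W.cl F.Y F.L ^ c * G.act σ y := by
  induction c generalizing y with
  | zero => simp
  | succ c ih =>
    rw [pow_succ' (G.cyc σ : W.K), mul_smul, pow_succ (W.cl F.Y F.L), mul_assoc, mul_assoc,
      ← G.mul_act σ _ ⟨_, Or.inr (Or.inr rfl), rfl⟩, mul_smul_comm, ← ih]

/-- **The generalized Tate conjecture implies the analogue of the conjecture A.** -/
theorem coniveauA_of_tate (G : GaloisAction F Γ) (h : ∀ r, TateTotal R G t r) :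
    ConiveauA F t := by
  intro r hr x hx hxL
  set c := F.Y.dim - (t + 2 * r) with hc
  have hL := F.hardLef (t + 2 * r) hr
  rw [← hc] at hL
  have hLx : ∀ y, (LinearMap.mulLeft W.K (W.cl F.Y F.L) ^ c) y = W.cl F.Y F.L ^ c * y := by
    intro y
    rw [LinearMap.pow_mulLeft, LinearMap.mulLeft_apply]
  have e1 : 2 * F.Y.dim - (t + 2 * r) = t + 2 * (r + c) := by omega
  rw [e1] at hxL hL
  have h3 := (h (r + c)).2 hxL
  -- the inverse images of the stable subspaces
  have h4 : sSup {V | V ≤ W.gr F.Y (t + 2 * (r + c)) ∧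
      ∃ h : IsStable G.act V, R.holds V (twistedRep G.cyc G.act (r + c) V h)} ≤
      (coniveau W F.Y r (t + 2 * r)).map (LinearMap.mulLeft W.K (W.cl F.Y F.L ^ c)) := by
    rw [sSup_le_iff]
    rintro V ⟨hV, hst, hR⟩
    set V0 : Submodule W.K (W.H F.Y) := W.gr F.Y (t + 2 * r) ⊓
      V.comap (LinearMap.mulLeft W.K (W.cl F.Y F.L ^ c)) with hV0
    have hst0 : IsStable G.act V0 := by
      rintro σ y ⟨hy, hy'⟩
      refine ⟨G.degree σ _ y hy, ?_⟩
      change W.cl F.Y F.L ^ c * G.act σ y ∈ V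
      rw [← pow_lef]
      exact Submodule.smul_mem _ _ (hst σ _ hy')
    have hmap : V0.map (LinearMap.mulLeft W.K (W.cl F.Y F.L ^ c)) = V := by
      apply le_antisymm
      · rintro _ ⟨y, hy, rfl⟩
        exact hy.2
      · intro v hv
        obtain ⟨y, hy, hyv⟩ := hL.2 v (hV hv)
        rw [hLx] at hyv
        have hyV : y ∈ V.comap (LinearMap.mulLeft W.K (W.cl F.Y F.L ^ c)) := by
          change W.cl F.Y F.L ^ c * y ∈ V
          rw [hyv]
          exact hv
        exact ⟨y, ⟨hy, hyV⟩, hyv⟩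
    have hinj : ∀ y ∈ V0, LinearMap.mulLeft W.K (W.cl F.Y F.L ^ c) y = 0 → y = 0 := by
      intro y hy h0
      apply hL.1 y hy.1
      rw [hLx]
      exact h0
    have hR0 : R.holds V0 (twistedRep G.cyc G.act r V0 hst0) :=
      holds_of_map (fun σ y _ => pow_lef G σ c y) hinj hst0 hst hmap hR
    have h5 := (h r).1 V0 inf_le_left hst0 hR0
    rw [← hmap]
    exact Submodule.map_mono h5
  obtain ⟨y, hy, hyx⟩ := h4 h3
  have h5 : x = y := by
    rw [← sub_eq_zero]
    apply hL.1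
    · refine Submodule.sub_mem _ hx ?_
      exact cGr_le t _ (by rw [cGr_coniveau]; exact hy)
    · rw [hLx, mul_sub]
      rw [LinearMap.mulLeft_apply] at hyx
      rw [hyx, sub_self]
  rw [h5]
  exact hy

end Pool.Agent.W498.Niv
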