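import Pool.Agent.W498.Niv.Filt

/-!
# The coniveau of the fixed part
-/

open CategoryTheory AlgebraicGeometry Finset

set_option linter.unusedSectionVars false

universe u v

namespace Pool.Agent.W498.Niv

open Pool.Agent.H914 Pool.Agent.H447 VarClass Obj WeilCohomology Pool.Agent.W498.Dom
  Pool.Agent.W534 Pool.Agent.W498.Tat Pool.Agent.W550.B Pool.Agent.W498.Spl

variable {k : Type u} [Field k] {𝒱 : VarClass k} {ops : CycleOps 𝒱}
  {W : WeilCohomology.{u, v} ops} {P Y S : 𝒱.Obj} {f : Y ⟶ S} {D : S.Cycles} {E : Y.Cycles}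
  {Q : PerverseDecomposition W f D E} {i : P ⟶ Y}

/-- The restrictions of the classes of given coniveau. -/
def rGr (W : WeilCohomology.{u, v} ops) (t : ℕ) {P Y : 𝒱.Obj} (i : P ⟶ Y) (j : ℕ) :
    Submodule W.K (W.H P) := (cGr W t Y j).map (W.map i).toLinearMap

lemma rGr_le_con (t j : ℕ) : rGr W t i j ≤ cGr W t P j := by
  rintro _ ⟨x, hx, rfl⟩
  have := cGr_kop (t := t) (qop_pull (W := W) i).kop j hx
  rwa [show ((j : ℤ) + 2 * 0) = (j : ℤ) by ring, grZ_natCast] at this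

lemma rGr_le_fixed (t j : ℕ) : rGr W t i j ≤ fixedPart W i := by
  rintro _ ⟨x, hx, rfl⟩
  exact ⟨x, rfl⟩

/-- The operator from the fibre to the total space. -/
theorem exists_inj_con (hD : S.IsCyc 1 D) (hE : Y.IsCyc 1 E) (hi : IsSmoothFibre Q i) {t : ℕ}
    (hY : Sym W t Y) (j : ℕ) : ∃ T : W.H P →ₗ[W.K] W.H Y,
      (∀ a ∈ cGr W t P j, T a ∈ cGr W t Y j) ∧ (∀ a ∈ fixedPerp W i, T a = 0) ∧
      (∀ x ∈ W.gr Y j, W.map i (T (W.map i x)) = 0 → W.map i x = 0) ∧
      (∀ a ∈ W.gr P j, T a ∈ W.gr Y j) ∧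
      ∀ (g : Module.End W.K (W.H Y)) (g' : Module.End W.K (W.H P)) (χ : W.K), χ ≠ 0 →
        (∀ l, ∀ y ∈ W.gr Y l, g y ∈ W.gr Y l) →
        (∀ y, g (W.map f (W.cl S D) * y) = χ • (W.map f (W.cl S D) * g y)) →
        (∀ y, g (W.cl Y E * y) = χ • (W.cl Y E * g y)) →
        (∀ x, g (W.push i x) = χ ^ S.dim • W.push i (g' x)) → ∀ x, g (T x) = T (g' x) := by
  obtain ⟨κ, M⟩ := exists_fibSetup hi
  have hr := hi.dim_eq
  have S' := setup Q hD hE hr
  have hdim : ∀ c ≤ P.dim + S.dim, Module.finrank W.K (W.gr Y (P.dim + S.dim - c)) =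
      Module.finrank W.K (W.gr Y (P.dim + S.dim + c)) := by
    intro c hc
    have := betti_symm (X := Y) W (i := P.dim + S.dim - c) (by omega)
    rw [show 2 * Y.dim - (P.dim + S.dim - c) = P.dim + S.dim + c by omega] at this
    exact this.symm
  obtain ⟨σ, hσ, hl, hcore⟩ := M.core_fib S' hdim j 0 (Or.inl rfl)
  obtain ⟨F, tF, hF⟩ := con_lower (f := f) hD hE hY (σ ^ 2) (by rw [hr]; exact hl)
  refine ⟨(F ^ S.dim) ∘ₗ W.push i, ?_, ?_, ?_, ?_, ?_⟩
  · intro a ha
    have h1 := cGr_kop (t := t) (qop_push (W := W) i).kop j ha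
    rw [show ((j : ℤ) + 2 * ((Y.dim : ℤ) - P.dim)) = ((j + 2 * S.dim : ℕ) : ℤ) by omega] at h1
    have h3 := (hF.pow S.dim) _ _ h1
    rw [show ((j + 2 * S.dim : ℕ) : ℤ) + (S.dim : ℤ) * -2 = (j : ℤ) by push_cast; ring,
      grZ_natCast] at h3
    exact h3
  · intro a ha
    rw [LinearMap.comp_apply, mem_perp_iff.1 ha, map_zero]
  · intro x hx h0
    have hw : ∀ m (hm : Y.dim = m), wt (W.isInternal Y) Y.dim = wt (setup Q hD hE hm).igr m := by
      intro m hm; subst hm; rfl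
    apply hcore F _ x hx h0
    rw [← hw _ hr]; exact tF
  · intro a ha
    have h1 := W.push_mem i ha
    rw [show ((j : ℤ) + 2 * ((Y.dim : ℤ) - P.dim)) = ((j + 2 * S.dim : ℕ) : ℤ) by omega] at h1
    have hFg : IsHom (W.gr Y) (-2) F := isHom_of_sl2 (W.isInternal Y)
      (N := 2 * Y.dim + 1) (fun i hi => W.gr_eq_bot Y i (by omega)) tF
    have h3 := (hFg.pow S.dim) _ _ h1
    rw [show ((j + 2 * S.dim : ℕ) : ℤ) + (S.dim : ℤ) * -2 = (j : ℤ) by push_cast; ring,
      grZ_natCast] at h3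
    exact h3
  · intro g g' χ hχ hg hgD hgE hgp
    have hgh : ∀ y, g (wt (W.isInternal Y) Y.dim y) = wt (W.isInternal Y) Y.dim (g y) := by
      intro y
      refine gr_induction (W.isInternal Y) (p := fun y => g (wt (W.isInternal Y) Y.dim y) =
        wt (W.isInternal Y) Y.dim (g y)) ?_ ?_ y
      · intro l a ha
        rw [wt_apply _ _ ha, wt_apply _ _ (hg l a ha), map_smul]
      · intro a b ha hb
        simp only [map_add, ha, hb]
    have tF' : Sl2 (wt (W.isInternal Y) Y.dim) (χ • (hop W f D + σ ^ 2 • eop W Y E)) (χ⁻¹ • F) := by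
      constructor
      · rw [smul_mul_smul_comm, smul_mul_smul_comm, mul_inv_cancel₀ hχ, inv_mul_cancel₀ hχ,
          one_smul, one_smul]
        exact tF.ef
      · rw [mul_smul_comm, smul_mul_assoc, mul_smul_comm]
        exact (smul_sub _ _ _).symm.trans (congrArg (fun z => χ • z) tF.he)
      · rw [mul_smul_comm, smul_mul_assoc, mul_smul_comm]
        exact ((smul_sub _ _ _).symm.trans (congrArg (fun z => χ⁻¹ • z) tF.hf)).trans
          (smul_neg _ _)
    have hgF : ∀ y, g (F y) = χ⁻¹ • F (g y) := by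
      intro y
      refine sl2_intertwine tF tF' hgh (fun v => ?_) y
      have e1 : (hop W f D + σ ^ 2 • eop W Y E) v =
          W.map f (W.cl S D) * v + σ ^ 2 • (W.cl Y E * v) := rfl
      have e2 : (χ • (hop W f D + σ ^ 2 • eop W Y E)) (g v) =
          χ • (W.map f (W.cl S D) * g v + σ ^ 2 • (W.cl Y E * g v)) := rfl
      rw [e1, e2, map_add, map_smul, hgD, hgE, smul_add, smul_comm (σ ^ 2)]
    have hgFn : ∀ (n : ℕ) y, g ((F ^ n) y) = (χ⁻¹) ^ n • (F ^ n) (g y) := by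
      intro n
      induction n with
      | zero => intro y; simp
      | succ n ih =>
        intro y
        rw [pow_succ' F, Module.End.mul_apply, hgF, ih, Module.End.mul_apply, map_smul, smul_smul,
          pow_succ' χ⁻¹]
    intro x
    rw [LinearMap.comp_apply, hgFn, hgp, map_smul, smul_smul, ← mul_pow, inv_mul_cancel₀ hχ,
      one_pow, one_smul, LinearMap.comp_apply]

/-- The component of degree `j` of a fixed class. -/
lemma exists_lift {x : W.H P} {j : ℕ} (hx : x ∈ fixedPart W i) (hj : x ∈ W.gr P j) :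
    ∃ y ∈ W.gr Y j, W.map i y = x := by
  obtain ⟨y, rfl⟩ := hx
  refine ⟨proj (W.isInternal Y) j y, proj_mem _ _ _, ?_⟩
  rw [map_proj]
  exact proj_same _ hj

lemma push_gr (hi : IsSmoothFibre Q i) (j : ℕ) (x : W.H P) (hx : x ∈ W.gr P j) :
    W.push i x ∈ W.gr Y (j + 2 * S.dim) := by
  have h1 := W.push_mem i hx
  have hr := hi.dim_eq
  rwa [show ((j : ℤ) + 2 * ((Y.dim : ℤ) - P.dim)) = ((j + 2 * S.dim : ℕ) : ℤ) by omega,
    grZ_natCast] at h1

lemma perp_proj (hi : IsSmoothFibre Q i) {x : W.H P} (j : ℕ) (hx : x ∈ fixedPerp W i) :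
    proj (W.isInternal P) j x ∈ fixedPerp W i := by
  rw [mem_perp_iff] at hx ⊢
  rw [hom_proj (W.isInternal P) (W.isInternal Y) (push_gr hi), hx, map_zero]

lemma fixed_proj {x : W.H P} (j : ℕ) (hx : x ∈ fixedPart W i) :
    proj (W.isInternal P) j x ∈ fixedPart W i := by
  obtain ⟨y, rfl⟩ := hx
  exact ⟨proj (W.isInternal Y) j y, map_proj j y⟩

/-- The components of a homogeneous class are homogeneous. -/
lemma gr_components (hD : S.IsCyc 1 D) (hE : Y.IsCyc 1 E) (hi : IsSmoothFibre Q i) {j : ℕ}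
    {x y : W.H P} (hx : x ∈ fixedPart W i) (hy : y ∈ fixedPerp W i) (h : x + y ∈ W.gr P j) :
    x ∈ W.gr P j ∧ y ∈ W.gr P j := by
  have h1 := proj_same (W.isInternal P) h
  rw [map_add] at h1
  have h2 : x - proj (W.isInternal P) j x = proj (W.isInternal P) j y - y := by
    rw [sub_eq_sub_iff_add_eq_add, add_comm (proj (W.isInternal P) j y)]
    exact h1.symm
  have h3 := (Submodule.disjoint_def.1 (fixed_isCompl hD hE hi).disjoint) _
    (Submodule.sub_mem _ hx (fixed_proj j hx))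
    (by rw [h2]; exact Submodule.sub_mem _ (perp_proj hi j hy) hy)
  have h4 : x ∈ W.gr P j := by
    rw [sub_eq_zero] at h3
    rw [h3]
    exact proj_mem _ _ _
  refine ⟨h4, ?_⟩
  have := Submodule.sub_mem _ h h4
  rwa [add_sub_cancel_left] at this

/-- **The coniveau of the components.** -/
theorem con_components (hD : S.IsCyc 1 D) (hE : Y.IsCyc 1 E) (hi : IsSmoothFibre Q i) {t : ℕ}
    (hY : Sym W t Y) {j : ℕ} {x y : W.H P} (hx : x ∈ fixedPart W i) (hy : y ∈ fixedPerp W i) :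
    x + y ∈ cGr W t P j ↔ x ∈ rGr W t i j ∧ y ∈ cGr W t P j := by
  constructor
  swap
  · rintro ⟨h1, h2⟩
    exact Submodule.add_mem _ (rGr_le_con t j h1) h2
  intro h
  obtain ⟨hxj, hyj⟩ := gr_components hD hE hi hx hy (cGr_le t j h)
  obtain ⟨T, hT1, hT2, hT3, -, -⟩ := exists_inj_con hD hE hi hY j
  set R : Module.End W.K (W.H P) := (W.map i).toLinearMap ∘ₗ T with hR
  have hRr : ∀ a ∈ cGr W t P j, R a ∈ rGr W t i j := fun a ha => ⟨T a, hT1 a ha, rfl⟩
  have hRi : ∀ a ∈ fixedPart W i, a ∈ W.gr P j → R a = 0 → a = 0 := by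
    intro a ha haj h0
    obtain ⟨b, hb, rfl⟩ := exists_lift ha haj
    exact hT3 b hb h0
  have hle : ∀ a ∈ rGr W t i j, a ∈ W.gr P j := fun a ha => cGr_le t j (rGr_le_con t j ha)
  obtain ⟨x', hx', hxx'⟩ := surj_of_finrank_eq (A := rGr W t i j) (B := rGr W t i j) (T := R)
    (fun a ha => hRr a (rGr_le_con t j ha))
    (fun a ha h0 => hRi a (rGr_le_fixed t j ha) (hle a ha) h0) rfl (R (x + y)) (hRr _ h)
  have h1 : R (x - x') = 0 := by
    have h2 : R y = 0 := by
      rw [hR, LinearMap.comp_apply, hT2 y hy, map_zero]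
    rw [map_add, h2, add_zero] at hxx'
    rw [map_sub, hxx', sub_self]
  have h2 := hRi _ (Submodule.sub_mem _ hx (rGr_le_fixed t j hx'))
    (Submodule.sub_mem _ hxj (hle _ hx')) h1
  rw [sub_eq_zero] at h2
  have h3 : x ∈ rGr W t i j := by rw [h2]; exact hx'
  refine ⟨h3, ?_⟩
  have := Submodule.sub_mem _ h (rGr_le_con t j h3)
  rwa [add_sub_cancel_left] at this

end Pool.Agent.W498.Niv
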